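import Pool.Agent.Helper17.SA.St3

/-!
# Module AM1 of project SA: automorphisms of alternating groups as permutations
-/

set_option autoImplicit false

namespace Pool.Agent.Helper98.SA

open Equiv Pool.Agent.Helper17.SA

/-- a permutation which commutes with all even permutations is trivial -/
theorem am1_central (m : ℕ) (hm : 4 ≤ m) (τ : Perm (Fin m))
    (h : ∀ a ∈ alternatingGroup (Fin m), τ * a * τ⁻¹ = a) : τ = 1 := by
  by_contra hne
  obtain ⟨i, hi⟩ : ∃ i, τ i ≠ i := by
    by_contra hall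
    push Not at hall
    exact hne (Equiv.ext hall)
  -- two more points
  have hcard : 2 ≤ ((Finset.univ.erase i).erase (τ i)).card := by
    rw [Finset.card_erase_of_mem (Finset.mem_erase.2 ⟨hi, Finset.mem_univ _⟩),
      Finset.card_erase_of_mem (Finset.mem_univ _), Finset.card_univ, Fintype.card_fin]
    omega
  obtain ⟨j, hj, k, hk, hjk⟩ := Finset.one_lt_card.1 hcard
  rw [Finset.mem_erase, Finset.mem_erase] at hj hk
  have hij : i ≠ j := hj.2.1.symm
  have hik : i ≠ k := hk.2.1.symm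
  have hc : (swap i j * swap i k).IsThreeCycle :=
    Equiv.Perm.isThreeCycle_swap_mul_swap_same hij hik hjk
  have h1 := h _ hc.mem_alternatingGroup
  have h2 : τ * (swap i j * swap i k) = (swap i j * swap i k) * τ := by
    conv_rhs => rw [← h1]
    rw [inv_mul_cancel_right]
  have h3 := DFunLike.congr_fun h2 i
  simp only [Perm.mul_apply] at h3
  rw [swap_apply_left, swap_apply_of_ne_of_ne hik.symm hjk.symm,
    swap_apply_of_ne_of_ne hi hk.1.symm, swap_apply_of_ne_of_ne hi hj.1.symm] at h3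
  exact hk.2.1 (τ.injective h3)

theorem pAM1 : StAUT → StAM1 := by
  intro hAUT m hm T
  let A := alternatingGroup (Fin m)
  let ψ : Perm (Fin m) →* MulAut A := MulAut.conjNormal
  have hψ : ∀ (g : Perm (Fin m)) (a : A), ((ψ g a : A) : Perm (Fin m)) = g * a * g⁻¹ :=
    fun g a => MulAut.conjNormal_apply g a
  have hinj : Function.Injective ψ := by
    rw [injective_iff_map_eq_one]
    intro g hg
    refine am1_central m (by omega) g fun a ha => ?_
    have h1 := hψ g ⟨a, ha⟩
    rw [hg] at h1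
    exact h1.symm
  have hsurj : Function.Surjective ψ := by
    intro φ
    obtain ⟨τ, hτ⟩ := hAUT m φ hm
    refine ⟨τ, ?_⟩
    ext a : 2
    rw [hψ, hτ]
  have hconj : ∀ x : A, ψ (x : Perm (Fin m)) = MulAut.conj x := by
    intro x
    ext a : 2
    rw [hψ]
    rfl
  refine ⟨T.comap ψ, ?_, ?_, ?_, ?_⟩
  · intro q hq
    exact hq.comap_of_injective ψ hinj
  · refine Nat.card_congr (Equiv.ofBijective (fun x : T.comap ψ => (⟨ψ x.1, x.2⟩ : T)) ⟨?_, ?_⟩)
    · intro x y hxy
      exact Subtype.ext (hinj (congrArg Subtype.val hxy))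
    · rintro ⟨t, ht⟩
      obtain ⟨g, rfl⟩ := hsurj t
      exact ⟨⟨g, ht⟩, rfl⟩
  · refine Nat.card_congr (Equiv.ofBijective
      (fun x : {t : Perm (Fin m) // t ∈ T.comap ψ ∧ t ∈ alternatingGroup (Fin m)} =>
        (⟨ψ x.1, x.2.1, ⟨x.1, x.2.2⟩, hconj ⟨x.1, x.2.2⟩⟩ :
          {t : MulAut (alternatingGroup (Fin m)) // t ∈ T ∧ ∃ a, t = MulAut.conj a})) ⟨?_, ?_⟩)
    · intro x y hxy
      exact Subtype.ext (hinj (congrArg Subtype.val hxy))
    · rintro ⟨t, ht, a, ha⟩
      have h1 : ψ (a : Perm (Fin m)) = t := by rw [hconj, ha]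
      exact ⟨⟨(a : Perm (Fin m)), by rw [Subgroup.mem_comap, h1]; exact ht, a.2⟩,
        Subtype.ext h1⟩
  · intro x
    constructor
    · rintro ⟨y, hy, hy1, hy2⟩
      refine ⟨ψ y, hy, fun h => hy1 (hinj (h.trans (map_one ψ).symm)), ?_⟩
      rw [Subgroup.mem_comap, map_mul, map_mul, map_inv, hconj] at hy2
      exact hy2
    · rintro ⟨t, ht, ht1, ht2⟩
      obtain ⟨y, rfl⟩ := hsurj t
      refine ⟨y, ht, fun h => ht1 (by rw [h, map_one]), ?_⟩
      rw [Subgroup.mem_comap, map_mul, map_mul, map_inv, hconj]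
      exact ht2

end Pool.Agent.Helper98.SA
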